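import Pool.Agent.LibHall43.C2
import Pool.Agent.LibHall43.D1a

set_option autoImplicit false

namespace LibHall

/-- The pairs `(x, y)` which are counted in the uniform version:
`A^(12/5) ≤ x`, `log x ≤ A^0.004`, `0 < |y^2 - x^3| ≤ A^4`. -/
def IsGU (A : ℝ) (x y : ℤ) : Prop :=
  0 < x ∧ A ^ 12 ≤ (x : ℝ) ^ 5 ∧ Real.log (x : ℝ) ≤ A ^ (0.004 : ℝ) ∧ 0 ≤ y ∧ y ^ 2 ≠ x ^ 3 ∧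
    |((y ^ 2 - x ^ 3 : ℤ) : ℝ)| ≤ A ^ 4

theorem U0_isG {A : ℝ} (hA : 1 < A) {x y : ℤ} (h : IsGU A x y) : ∃ C : ℕ, IsG A C x y := by
  obtain ⟨h1, h2, -, h4, h5, h6⟩ := h
  obtain ⟨C, hC⟩ := pow_unbounded_of_one_lt (x : ℝ) hA
  refine ⟨C, h1, h2, ?_, h4, h5, h6⟩
  refine hC.le.trans (pow_le_pow_right₀ hA.le (by omega))

theorem U0_W_facts (A N1 N2 : ℝ) (hA : 100 ≤ A) (hN1 : 0 < N1) (hN2 : 0 < N2)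
    (hN : N1 * N2 = 6) (x y : ℤ) (w1 w2 : ℤ × ℤ) (hG : IsGU A x y)
    (hW : IsW A N1 N2 x y w1 w2) :
    1 ≤ 6 * A * N1 ^ 3 ∧ 1 ≤ 6 * A * N2 ^ 3 ∧ w1.2 ≠ 0 ∧
    |(T3 x y w1 w1 w1 : ℝ)| ≤ 6 * A * N1 ^ 3 ∧ |(T3 x y w1 w1 w2 : ℝ)| ≤ 36 * A * N1 ∧
    |(T3 x y w1 w2 w2 : ℝ)| ≤ 36 * A * N2 ∧ |(T3 x y w2 w2 w2 : ℝ)| ≤ 6 * A * N2 ^ 3 ∧
    |(w1.2 : ℝ)| ≤ √(x : ℝ) ∧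
    IsS (20 * N2 / N1) (A * N2 ^ 3 / 2) (T3 x y w1 w1 w1) (T3 x y w1 w1 w2) (T3 x y w1 w2 w2)
      (T3 x y w2 w2 w2, w2.2, -w1.2) := by
  obtain ⟨C, hC⟩ := U0_isG (by linarith) hG
  exact W_facts C A N1 N2 hA hN1 hN2 hN x y w1 w2 hC hW

/-- The statement of the count in a box of slices, uniform version. -/
def BoxU : Prop :=
  ∃ n0 : ℝ, 1 < n0 ∧ ∀ n : ℝ, n0 ≤ n → ∀ Θ : ℝ, 0 < Θ →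
    Θ ≤ n ^ 344 → 1 ≤ Θ * n ^ 1000 → ∀ R0 R1 R2 : ℝ, 0 ≤ R0 → 0 ≤ R1 → 0 ≤ R2 →
    R0 * Θ ^ 3 ≤ n ^ 1001 → R1 * Θ ^ 2 ≤ n ^ 1001 → R2 * Θ ≤ n ^ 1001 →
    ∀ S : Finset ((ℤ × ℤ × ℤ) × (ℤ × ℤ × ℤ)), (∀ s ∈ S, s.1.1 ≠ 0 ∧
      (∀ e : ℤ, e ^ 3 ≠ s.1.1) ∧ |(s.1.1 : ℝ)| ≤ R0 ∧
      |(s.1.2.1 : ℝ)| ≤ R1 ∧ |(s.1.2.2 : ℝ)| ≤ R2 ∧ IsS Θ (n ^ 999) s.1.1 s.1.2.1 s.1.2.2 s.2 ∧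
      Real.log |(s.2.2.2 : ℝ)| ≤ n ^ 5 ∧ |(s.2.1 : ℝ)| ≤ n ^ 1001) →
    (S.card : ℝ) ≤ (2 * R0 + 1) * (2 * R1 + 1) * (2 * R2 + 1) * n ^ 995

end LibHall
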