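import Pool.Agent.LibHall43.C3b
import Pool.Agent.LibHU43.U0

set_option autoImplicit false

namespace LibHall

/-- The number of `(x, y, w1, w2)` of type `(N1, N2)` with first coefficient in `E`. -/
theorem W_count_labU (A : ℝ) (hA : 3000 ≤ A) (N1 N2 : ℝ) (hN1 : 0 < N1) (hN2 : 0 < N2)
    (hN : N1 * N2 = 6) (E : Finset ℤ)
    (S : Finset ((ℤ × ℤ) × (ℤ × ℤ) × (ℤ × ℤ)))
    (hS : ∀ s ∈ S, IsGU A s.1.1 s.1.2 ∧ IsW A N1 N2 s.1.1 s.1.2 s.2.1 s.2.2)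
    (hE : ∀ s ∈ S, T3 s.1.1 s.1.2 s.2.1 s.2.1 s.2.1 ∈ E) :
    (S.card : ℝ) ≤ 2 * 10 ^ 13 * A ^ 3 * N2 ^ 3 * A ^ (0.004 : ℝ) * (E.card : ℝ) := by
  have hA0 : 0 < A := by linarith
  have hlog2 := Real.log_pos (by norm_num : (1 : ℝ) < 2)
  have hL1 : 1 ≤ A ^ (0.004 : ℝ) := Real.one_le_rpow (by linarith) (by norm_num)
  by_cases hne : S.Nonempty
  swap
  · rw [Finset.not_nonempty_iff_eq_empty.1 hne]
    simp only [Finset.card_empty, Nat.cast_zero]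
    positivity
  have hfacts := fun s (hs : s ∈ S) => U0_W_facts A N1 N2 (by linarith) hN1 hN2 hN s.1.1 s.1.2
    s.2.1 s.2.2 (hS s hs).1 (hS s hs).2
  obtain ⟨s0, hs0⟩ := hne
  obtain ⟨hR0, hR3, -⟩ := hfacts s0 hs0
  set Θ := 20 * N2 / N1 with hΘ
  have hΘ0 : 0 < Θ := by positivity
  -- consequences of the product relation
  have hN2' : N2 = 6 / N1 := by rw [eq_div_iff hN1.ne']; linarith
  have hN1' : N1 = 6 / N2 := by rw [eq_div_iff hN2.ne']; linarith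
  have hN1low : 100 ≤ A * N1 := by
    by_contra hcon
    push Not at hcon
    have h1 : (A * N1) ^ 3 < 100 ^ 3 := pow_lt_pow_left₀ hcon (by positivity) (by norm_num)
    have h2 : A ^ 2 ≤ 6 * (A * N1) ^ 3 := by
      calc A ^ 2 = A ^ 2 * 1 := (mul_one _).symm
        _ ≤ A ^ 2 * (6 * A * N1 ^ 3) := by gcongr
        _ = 6 * (A * N1) ^ 3 := by ring
    nlinarith
  have hN2low : 110 ≤ A * N2 := by
    by_contra hcon
    push Not at hcon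
    have h1 : (A * N2) ^ 3 < 110 ^ 3 := pow_lt_pow_left₀ hcon (by positivity) (by norm_num)
    have h2 : A ^ 2 ≤ 6 * (A * N2) ^ 3 := by
      calc A ^ 2 = A ^ 2 * 1 := (mul_one _).symm
        _ ≤ A ^ 2 * (6 * A * N2 ^ 3) := by gcongr
        _ = 6 * (A * N2) ^ 3 := by ring
    nlinarith
  -- the box
  obtain ⟨M, hM⟩ : ∃ M : ℝ, M = 1344000 := ⟨_, rfl⟩
  have hM0 : 0 < M := by rw [hM]; norm_num
  have hMint : M = ((1344000 : ℤ) : ℝ) := by rw [hM]; norm_num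
  have hMfl : ⌊M⌋ = 1344000 := by rw [hMint]; exact Int.floor_intCast _
  set K : ℕ := ⌊A ^ (0.004 : ℝ) / Real.log 2⌋₊ with hK
  set Bx : Finset (ℤ × ℤ × ℤ × ℤ × ℕ × ℤ) :=
    E ×ˢ
      Finset.Icc (-⌊36 * A * N1⌋) ⌊36 * A * N1⌋ ×ˢ
      Finset.Icc (-⌊36 * A * N2⌋) ⌊36 * A * N2⌋ ×ˢ
      Finset.Icc (-⌊6 * A * N2 ^ 3⌋) ⌊6 * A * N2 ^ 3⌋ ×ˢ
      Finset.range (K + 1) ×ˢ Finset.Icc (-⌊M⌋) ⌊M⌋ with hBx
  have hmaps : ∀ s ∈ S, C3b_lab M Θ s ∈ Bx := by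
    intro s hs
    obtain ⟨-, -, hb0, h0, h1, h2, h3, hbx, hIsS⟩ := hfacts s hs
    simp only [hBx, C3b_lab, Finset.mem_product]
    refine ⟨hE s hs, C3b_mem _ _ h1, C3b_mem _ _ h2, C3b_mem _ _ h3, ?_, ?_⟩
    · rw [Finset.mem_range, Nat.lt_succ_iff, hK, Nat.le_floor_iff (by positivity),
        le_div_iff₀ hlog2]
      have h4 := (C3b_log s.2.1.2 hb0).1
      have h5 : |((-s.2.1.2 : ℤ) : ℝ)| ≤ √(s.1.1 : ℝ) := by
        rw [Int.cast_neg, abs_neg]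
        exact hbx
      have hx0 : (0 : ℝ) < s.1.1 := by exact_mod_cast (hS s hs).1.1
      have h7 := Real.log_le_log (by positivity) (h4.trans h5)
      rw [Real.log_pow, Real.log_sqrt hx0.le] at h7
      have h8 := (hS s hs).1.2.2.1
      linarith
    · have hbR : ((-s.2.1.2 : ℤ) : ℝ) ≠ 0 := by exact_mod_cast neg_ne_zero.2 hb0
      have h4 : |(s.2.2.2 : ℝ)| ≤ Θ * |((-s.2.1.2 : ℤ) : ℝ)| := hIsS.2.2.1
      have h5 : |(s.2.2.2 : ℝ) / ((-s.2.1.2 : ℤ) : ℝ) * M / Θ| ≤ M := by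
        rw [abs_div, abs_mul, abs_div, abs_of_pos hM0, abs_of_pos hΘ0, div_le_iff₀ hΘ0]
        have h6 : |(s.2.2.2 : ℝ)| / |((-s.2.1.2 : ℤ) : ℝ)| ≤ Θ :=
          (div_le_iff₀ (abs_pos.2 hbR)).2 h4
        calc |(s.2.2.2 : ℝ)| / |((-s.2.1.2 : ℤ) : ℝ)| * M ≤ Θ * M :=
              mul_le_mul_of_nonneg_right h6 hM0.le
          _ = M * Θ := mul_comm _ _
      have h7 := abs_le.1 h5
      rw [Finset.mem_Icc]
      constructor
      · rw [hMfl]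
        refine Int.le_floor.2 ?_
        have h8 : ((-1344000 : ℤ) : ℝ) = -M := by rw [hM]; norm_num
        rw [h8]
        exact h7.1
      · exact Int.floor_le_floor h7.2
  have hinj : Set.InjOn (C3b_lab M Θ) (S : Set ((ℤ × ℤ) × (ℤ × ℤ) × (ℤ × ℤ))) := by
    intro s hs s' hs' heq
    have hs := Finset.mem_coe.1 hs
    have hs' := Finset.mem_coe.1 hs'
    obtain ⟨-, -, hb0, h0, h1, h2, h3, hbx, hIsS⟩ := hfacts s hs
    obtain ⟨-, -, hb0', h0', h1', h2', h3', hbx', hIsS'⟩ := hfacts s' hs'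
    simp only [C3b_lab, Prod.mk.injEq] at heq
    obtain ⟨e0, e1, e2, e3, ek, ef⟩ := heq
    rw [← e0, ← e1, ← e2, ← e3] at hIsS'
    have hl := C3b_log s.2.1.2 hb0
    have hl' := C3b_log s'.2.1.2 hb0'
    rw [← ek] at hl'
    have hB1 : (1 : ℝ) ≤ 2 ^ Nat.log 2 s.2.1.2.natAbs := one_le_pow₀ (by norm_num)
    have hclose : |(s.2.2.2 : ℝ) / ((-s.2.1.2 : ℤ) : ℝ) - (s'.2.2.2 : ℝ) / ((-s'.2.1.2 : ℤ) : ℝ)| *
        (14 * (48000 * A * N2 ^ 3)) ≤ Θ * (A * N2 ^ 3 / 2) := by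
      have h4 := Int.abs_sub_lt_one_of_floor_eq_floor ef
      have h5 : (s.2.2.2 : ℝ) / ((-s.2.1.2 : ℤ) : ℝ) * M / Θ -
          (s'.2.2.2 : ℝ) / ((-s'.2.1.2 : ℤ) : ℝ) * M / Θ =
          ((s.2.2.2 : ℝ) / ((-s.2.1.2 : ℤ) : ℝ) - (s'.2.2.2 : ℝ) / ((-s'.2.1.2 : ℤ) : ℝ)) *
            (M / Θ) := by ring
      rw [h5, abs_mul, abs_of_pos (div_pos hM0 hΘ0), ← mul_div_assoc, div_lt_one hΘ0] at h4
      calc |(s.2.2.2 : ℝ) / ((-s.2.1.2 : ℤ) : ℝ) - (s'.2.2.2 : ℝ) / ((-s'.2.1.2 : ℤ) : ℝ)| *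
            (14 * (48000 * A * N2 ^ 3))
          = (|(s.2.2.2 : ℝ) / ((-s.2.1.2 : ℤ) : ℝ) - (s'.2.2.2 : ℝ) / ((-s'.2.1.2 : ℤ) : ℝ)| * M) *
            (A * N2 ^ 3 / 2) := by rw [hM]; ring
        _ ≤ Θ * (A * N2 ^ 3 / 2) := mul_le_mul_of_nonneg_right h4.le (by positivity)
    have hc0 : |(T3 s.1.1 s.1.2 s.2.1 s.2.1 s.2.1 : ℝ)| * Θ ^ 3 ≤ 48000 * A * N2 ^ 3 := by
      calc |(T3 s.1.1 s.1.2 s.2.1 s.2.1 s.2.1 : ℝ)| * Θ ^ 3 ≤ (6 * A * N1 ^ 3) * Θ ^ 3 := by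
            gcongr
        _ = 48000 * A * N2 ^ 3 := by
            rw [hΘ]
            field_simp
            ring
    have hc1 : |(T3 s.1.1 s.1.2 s.2.1 s.2.1 s.2.2 : ℝ)| * Θ ^ 2 ≤ 48000 * A * N2 ^ 3 := by
      calc |(T3 s.1.1 s.1.2 s.2.1 s.2.1 s.2.2 : ℝ)| * Θ ^ 2 ≤ (36 * A * N1) * Θ ^ 2 := by
            gcongr
        _ = 2400 * A * N2 ^ 3 := by
            rw [hΘ, hN1']
            field_simp
            ring
        _ ≤ 48000 * A * N2 ^ 3 := by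
            have : 0 < A * N2 ^ 3 := by positivity
            linarith
    have hc2 : |(T3 s.1.1 s.1.2 s.2.1 s.2.2 s.2.2 : ℝ)| * Θ ≤ 48000 * A * N2 ^ 3 := by
      calc |(T3 s.1.1 s.1.2 s.2.1 s.2.2 s.2.2 : ℝ)| * Θ ≤ (36 * A * N2) * Θ := by
            gcongr
        _ = 120 * A * N2 ^ 3 := by
            rw [hΘ, hN1']
            field_simp
            ring
        _ ≤ 48000 * A * N2 ^ 3 := by
            have : 0 < A * N2 ^ 3 := by positivity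
            linarith
    have hbig : 4 * (2 : ℝ) ^ 2 * Θ < A * N2 ^ 3 / 2 * 2 ^ Nat.log 2 s.2.1.2.natAbs := by
      have h6 : 4 * (2 : ℝ) ^ 2 * Θ < A * N2 ^ 3 / 2 := by
        have h7 : Θ = 10 / 3 * N2 ^ 2 := by
          rw [hΘ, hN1']
          field_simp
          ring
        rw [h7]
        have h8 : 0 < N2 ^ 2 := by positivity
        nlinarith
      calc 4 * (2 : ℝ) ^ 2 * Θ < A * N2 ^ 3 / 2 := h6
        _ ≤ A * N2 ^ 3 / 2 * 2 ^ Nat.log 2 s.2.1.2.natAbs :=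
          le_mul_of_one_le_right (by positivity) hB1
    obtain ⟨ha, hb⟩ := uniq _ _ _ _ _ _ _ _ Θ (A * N2 ^ 3 / 2) (48000 * A * N2 ^ 3)
      (2 ^ Nat.log 2 s.2.1.2.natAbs) 2 hΘ0 (by positivity) hB1 (by norm_num) hc0 hc1 hc2
      hIsS hIsS' hl.1 hl'.1 hl.2 hl'.2 hclose hbig
    have hb' : s.2.1.2 = s'.2.1.2 := neg_injective hb
    obtain ⟨r1, r2, r3, r4⟩ := tuple_inj s.1.1 s.1.2 s'.1.1 s'.1.2 s.2.1 s.2.2 s'.2.1 s'.2.2
      (hS s hs).2.1 (hS s' hs').2.1 hb0 e0 e1 e2 ha hb'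
    exact Prod.ext (Prod.ext r1 r2) (Prod.ext r3 r4)
  have hcard : S.card ≤ Bx.card := Finset.card_le_card_of_injOn _ hmaps hinj
  have hBcard : (Bx.card : ℝ) ≤ (E.card : ℝ) * ((3 * (36 * A * N1)) *
      ((3 * (36 * A * N2)) * ((3 * (6 * A * N2 ^ 3)) *
        ((3 * A ^ (0.004 : ℝ)) * (3 * M))))) := by
    rw [hBx, Finset.card_product, Finset.card_product, Finset.card_product, Finset.card_product,
      Finset.card_product, Finset.card_range]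
    apply C3b_prod
    · exact le_refl _
    · exact C3b_card_le _ (by linarith)
    · exact C3b_card_le _ (by linarith)
    · exact C3b_card_le _ hR3
    · have h1 : (K : ℝ) ≤ A ^ (0.004 : ℝ) / Real.log 2 := Nat.floor_le (by positivity)
      have h2 : A ^ (0.004 : ℝ) / Real.log 2 ≤ 2 * A ^ (0.004 : ℝ) := by
        rw [div_le_iff₀ hlog2]
        have h3 := Real.log_two_gt_d9
        nlinarith
      rw [Nat.cast_add, Nat.cast_one]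
      linarith
    · exact C3b_card_le _ (by rw [hM]; norm_num)
  have hcard' : (S.card : ℝ) ≤ (Bx.card : ℝ) := by exact_mod_cast hcard
  refine hcard'.trans (hBcard.trans ?_)
  have hEc : (0 : ℝ) ≤ (E.card : ℝ) := Nat.cast_nonneg _
  have hpos : 0 ≤ A ^ 3 * N2 ^ 3 * A ^ (0.004 : ℝ) * (E.card : ℝ) :=
    mul_nonneg (by positivity) hEc
  calc (E.card : ℝ) * ((3 * (36 * A * N1)) * ((3 * (36 * A * N2)) * ((3 * (6 * A * N2 ^ 3)) *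
        ((3 * A ^ (0.004 : ℝ)) * (3 * M)))))
      = 209952 * (N1 * N2) * (9 * M) * (A ^ 3 * N2 ^ 3 * A ^ (0.004 : ℝ) * (E.card : ℝ)) := by
        ring
    _ ≤ 2 * 10 ^ 13 * (A ^ 3 * N2 ^ 3 * A ^ (0.004 : ℝ) * (E.card : ℝ)) := by
        apply mul_le_mul_of_nonneg_right _ hpos
        rw [hN, hM]
        norm_num
    _ = 2 * 10 ^ 13 * A ^ 3 * N2 ^ 3 * A ^ (0.004 : ℝ) * (E.card : ℝ) := by ring

/-- General bound, uniform version. -/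
theorem W_count_trivU (A : ℝ) (hA : 3000 ≤ A) (N1 N2 : ℝ) (hN1 : 0 < N1) (hN2 : 0 < N2)
    (hN : N1 * N2 = 6)
    (S : Finset ((ℤ × ℤ) × (ℤ × ℤ) × (ℤ × ℤ)))
    (hS : ∀ s ∈ S, IsGU A s.1.1 s.1.2 ∧ IsW A N1 N2 s.1.1 s.1.2 s.2.1 s.2.2) :
    (S.card : ℝ) ≤ 10 ^ 17 * A ^ 4 * A ^ (0.004 : ℝ) := by
  have hA0 : 0 < A := by linarith
  rcases S.eq_empty_or_nonempty with rfl | ⟨s0, hs0⟩
  · simp only [Finset.card_empty, Nat.cast_zero]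
    positivity
  have hfacts := fun s (hs : s ∈ S) => U0_W_facts A N1 N2 (by linarith) hN1 hN2 hN s.1.1 s.1.2
    s.2.1 s.2.2 (hS s hs).1 (hS s hs).2
  have h1 := W_count_labU A hA N1 N2 hN1 hN2 hN
    (Finset.Icc (-⌊6 * A * N1 ^ 3⌋) ⌊6 * A * N1 ^ 3⌋) S hS
    (fun s hs => C3b_mem _ _ (hfacts s hs).2.2.2.1)
  have h2 := C3b_card_le (6 * A * N1 ^ 3) (hfacts s0 hs0).1
  have h3 : N1 ^ 3 * N2 ^ 3 = 216 := by
    calc N1 ^ 3 * N2 ^ 3 = (N1 * N2) ^ 3 := by ring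
      _ = 216 := by rw [hN]; norm_num
  calc (S.card : ℝ) ≤ 2 * 10 ^ 13 * A ^ 3 * N2 ^ 3 * A ^ (0.004 : ℝ) *
        ((Finset.Icc (-⌊6 * A * N1 ^ 3⌋) ⌊6 * A * N1 ^ 3⌋).card : ℝ) := h1
    _ ≤ 2 * 10 ^ 13 * A ^ 3 * N2 ^ 3 * A ^ (0.004 : ℝ) * (3 * (6 * A * N1 ^ 3)) :=
        mul_le_mul_of_nonneg_left h2 (by positivity)
    _ = 36 * 10 ^ 13 * (N1 ^ 3 * N2 ^ 3) * (A ^ 4 * A ^ (0.004 : ℝ)) := by ring
    _ ≤ 10 ^ 17 * (A ^ 4 * A ^ (0.004 : ℝ)) := by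
        apply mul_le_mul_of_nonneg_right _ (by positivity)
        rw [h3]
        norm_num
    _ = 10 ^ 17 * A ^ 4 * A ^ (0.004 : ℝ) := by ring

/-- Bound for those with first coefficient a cube. -/
theorem W_count_cubeU (A : ℝ) (hA : 3000 ≤ A) (N1 N2 : ℝ) (hN1 : 0 < N1) (hN2 : 0 < N2)
    (hN : N1 * N2 = 6)
    (S : Finset ((ℤ × ℤ) × (ℤ × ℤ) × (ℤ × ℤ)))
    (hS : ∀ s ∈ S, IsGU A s.1.1 s.1.2 ∧ IsW A N1 N2 s.1.1 s.1.2 s.2.1 s.2.2 ∧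
      ∃ e : ℤ, e ^ 3 = T3 s.1.1 s.1.2 s.2.1 s.2.1 s.2.1) :
    (S.card : ℝ) ≤ 10 ^ 15 * A ^ (10 / 3 : ℝ) * N2 ^ 2 * A ^ (0.004 : ℝ) := by
  classical
  have hA0 : 0 < A := by linarith
  rcases S.eq_empty_or_nonempty with rfl | ⟨s0, hs0⟩
  · simp only [Finset.card_empty, Nat.cast_zero]
    positivity
  have hfacts := fun s (hs : s ∈ S) => U0_W_facts A N1 N2 (by linarith) hN1 hN2 hN s.1.1 s.1.2
    s.2.1 s.2.2 (hS s hs).1 (hS s hs).2.1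
  set a : ℝ := A ^ (1 / 3 : ℝ) with ha
  have ha0 : 0 < a := Real.rpow_pos_of_pos hA0 _
  have ha3 : a ^ 3 = A := by
    rw [ha, ← Real.rpow_natCast, ← Real.rpow_mul hA0.le]
    norm_num
  have ha10 : A ^ 3 * a = A ^ (10 / 3 : ℝ) := by
    rw [ha, ← Real.rpow_natCast, ← Real.rpow_add hA0]
    norm_num
  set R : ℝ := 2 * a * N1 with hR
  have hR3 : 6 * A * N1 ^ 3 ≤ R ^ 3 := by
    rw [hR]
    have h1 : (2 * a * N1) ^ 3 = 8 * (A * N1 ^ 3) := by rw [← ha3]; ring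
    rw [h1]
    have h2 : 0 < A * N1 ^ 3 := by positivity
    linarith
  have hR0 : 0 < R := by positivity
  have hR1 : 1 ≤ R := by
    have h1 : (1 : ℝ) ^ 3 ≤ R ^ 3 := by
      rw [one_pow]
      exact (hfacts s0 hs0).1.trans hR3
    exact le_of_pow_le_pow_left₀ (by norm_num) hR0.le h1
  have h1 := W_count_labU A hA N1 N2 hN1 hN2 hN
    ((Finset.Icc (-⌊R⌋) ⌊R⌋).image (fun e : ℤ => e ^ 3)) S
    (fun s hs => ⟨(hS s hs).1, (hS s hs).2.1⟩)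
    (fun s hs => by
      obtain ⟨e, he⟩ := (hS s hs).2.2
      rw [Finset.mem_image]
      refine ⟨e, C3b_mem _ _ ?_, he⟩
      have h2 := (hfacts s hs).2.2.2.1
      rw [← he] at h2
      push_cast at h2
      rw [abs_pow] at h2
      exact le_of_pow_le_pow_left₀ (by norm_num) hR0.le (h2.trans hR3))
  have h2 := C3b_card_le R hR1
  have h3 : (((Finset.Icc (-⌊R⌋) ⌊R⌋).image (fun e : ℤ => e ^ 3)).card : ℝ) ≤ 3 * R := by
    refine le_trans ?_ h2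
    exact_mod_cast Finset.card_image_le
  calc (S.card : ℝ) ≤ 2 * 10 ^ 13 * A ^ 3 * N2 ^ 3 * A ^ (0.004 : ℝ) *
        (((Finset.Icc (-⌊R⌋) ⌊R⌋).image (fun e : ℤ => e ^ 3)).card : ℝ) := h1
    _ ≤ 2 * 10 ^ 13 * A ^ 3 * N2 ^ 3 * A ^ (0.004 : ℝ) * (3 * R) :=
        mul_le_mul_of_nonneg_left h3 (by positivity)
    _ = 12 * 10 ^ 13 * (N1 * N2) * ((A ^ 3 * a) * N2 ^ 2 * A ^ (0.004 : ℝ)) := by
        rw [hR]
        ring
    _ ≤ 10 ^ 15 * ((A ^ 3 * a) * N2 ^ 2 * A ^ (0.004 : ℝ)) := by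
        apply mul_le_mul_of_nonneg_right _ (by positivity)
        rw [hN]
        norm_num
    _ = 10 ^ 15 * A ^ (10 / 3 : ℝ) * N2 ^ 2 * A ^ (0.004 : ℝ) := by
        rw [ha10]
        ring

end LibHall
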