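import Pool.Agent.LibHall43.D3
import Pool.Agent.LibHU43.U1
import Pool.Agent.LibHU43.U2

set_option autoImplicit false

namespace LibHall

theorem U3_rpow_le (y : ℝ) (hy : 1 ≤ y) : y ^ (0.995 : ℝ) ≤ y := by
  calc y ^ (0.995 : ℝ) ≤ y ^ (1 : ℝ) := Real.rpow_le_rpow_of_exponent_le hy (by norm_num)
    _ = y := Real.rpow_one y

theorem U3_boundA (A N : ℝ) (hA : 1 ≤ A) (hN : 0 < N) (hN2 : N ≤ 2) :
    N ^ 2 * (10 ^ 8 * A ^ 3 * N ^ 3 * (A * (6 / N) ^ 3) ^ (0.995 : ℝ))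
      ≤ 10 ^ 12 * A ^ (3.995 : ℝ) := by
  have hA0 : 0 < A := by linarith
  have h6 : 0 < (6 / N) ^ 3 := by positivity
  have h7 : 1 ≤ (6 / N) ^ 3 := by
    apply one_le_pow₀
    rw [le_div_iff₀ hN]; linarith
  rw [Real.mul_rpow hA0.le h6.le]
  have e1 : A ^ (3.995 : ℝ) = A ^ 3 * A ^ (0.995 : ℝ) := by
    rw [← Real.rpow_natCast, ← Real.rpow_add hA0]; norm_num
  rw [e1]
  have h8 := U3_rpow_le _ h7
  have h9 : N ^ 5 * ((6 / N) ^ 3) ^ (0.995 : ℝ) ≤ 1000 := by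
    calc N ^ 5 * ((6 / N) ^ 3) ^ (0.995 : ℝ) ≤ N ^ 5 * (6 / N) ^ 3 := by
          apply mul_le_mul_of_nonneg_left h8; positivity
      _ = 216 * N ^ 2 := by field_simp; norm_num
      _ ≤ 1000 := by nlinarith
  have hp : 0 ≤ A ^ 3 * A ^ (0.995 : ℝ) := by positivity
  calc N ^ 2 * (10 ^ 8 * A ^ 3 * N ^ 3 * (A ^ (0.995 : ℝ) * ((6 / N) ^ 3) ^ (0.995 : ℝ)))
      = 10 ^ 8 * (N ^ 5 * ((6 / N) ^ 3) ^ (0.995 : ℝ)) * (A ^ 3 * A ^ (0.995 : ℝ)) := by ring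
    _ ≤ 10 ^ 8 * 1000 * (A ^ 3 * A ^ (0.995 : ℝ)) := by
      apply mul_le_mul_of_nonneg_right _ hp
      apply mul_le_mul_of_nonneg_left h9
      norm_num
    _ ≤ 10 ^ 12 * (A ^ 3 * A ^ (0.995 : ℝ)) := by
      apply mul_le_mul_of_nonneg_right _ hp
      norm_num

theorem U3_boundB (A N : ℝ) (hA : 1 ≤ A) (hN : 0 < N) (hN2 : N ≤ 2) :
    N ^ 2 * (10 ^ 8 * A ^ 3 * (6 / N) ^ 3 * (A * N ^ 3) ^ (0.995 : ℝ))
      ≤ 10 ^ 12 * A ^ (3.995 : ℝ) := by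
  have hA0 : 0 < A := by linarith
  have h6 : 0 < N ^ 3 := by positivity
  rw [Real.mul_rpow hA0.le h6.le]
  have e1 : A ^ (3.995 : ℝ) = A ^ 3 * A ^ (0.995 : ℝ) := by
    rw [← Real.rpow_natCast, ← Real.rpow_add hA0]; norm_num
  rw [e1]
  have h9 : (N ^ 3) ^ (0.995 : ℝ) ≤ 8 * N := by
    rcases le_or_gt N 1 with h | h
    · have h1 : N ^ 3 ≤ 1 := pow_le_one₀ hN.le h
      calc (N ^ 3) ^ (0.995 : ℝ) ≤ (N ^ 3) ^ (1 / 3 : ℝ) :=
            Real.rpow_le_rpow_of_exponent_ge h6 h1 (by norm_num)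
        _ = N := by
          rw [← Real.rpow_natCast N 3, ← Real.rpow_mul hN.le]; norm_num
        _ ≤ 8 * N := by linarith
    · have h1 : 1 ≤ N ^ 3 := one_le_pow₀ h.le
      calc (N ^ 3) ^ (0.995 : ℝ) ≤ N ^ 3 := U3_rpow_le _ h1
        _ ≤ 8 * N := by nlinarith [mul_pos hN hN]
  have hp : 0 ≤ A ^ 3 * A ^ (0.995 : ℝ) := by positivity
  have hN' : N ≠ 0 := hN.ne'
  calc N ^ 2 * (10 ^ 8 * A ^ 3 * (6 / N) ^ 3 * (A ^ (0.995 : ℝ) * (N ^ 3) ^ (0.995 : ℝ)))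
      = 10 ^ 8 * 216 * (1 / N * (N ^ 3) ^ (0.995 : ℝ)) * (A ^ 3 * A ^ (0.995 : ℝ)) := by
        field_simp; ring
    _ ≤ 10 ^ 8 * 216 * 8 * (A ^ 3 * A ^ (0.995 : ℝ)) := by
      apply mul_le_mul_of_nonneg_right _ hp
      apply mul_le_mul_of_nonneg_left _ (by norm_num)
      calc 1 / N * (N ^ 3) ^ (0.995 : ℝ) ≤ 1 / N * (8 * N) := by
            apply mul_le_mul_of_nonneg_left h9; positivity
        _ = 8 := by field_simp
    _ ≤ 10 ^ 12 * (A ^ 3 * A ^ (0.995 : ℝ)) := by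
      apply mul_le_mul_of_nonneg_right _ hp
      norm_num

theorem U3_boundB' (A N : ℝ) (hA : 1 ≤ A) (hN : 0 < N)
    (h : (A * N ^ 3) ^ 10 < A ^ 9) :
    N ^ 2 * (10 ^ 17 * A ^ 4 * A ^ (0.004 : ℝ)) ≤ 10 ^ 17 * A ^ (3.94 : ℝ) := by
  have hA0 : 0 < A := by linarith
  have h1 : (N ^ 2) ^ 15 ≤ A⁻¹ := by
    have h2 : (A * N ^ 3) ^ 10 = A ^ 9 * (A * (N ^ 2) ^ 15) := by ring
    have h3 : A ^ 9 * (A * (N ^ 2) ^ 15) < A ^ 9 * 1 := by rw [← h2, mul_one]; exact h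
    have h4 : A * (N ^ 2) ^ 15 < 1 := lt_of_mul_lt_mul_left h3 (by positivity)
    rw [← one_div, le_div_iff₀ hA0]
    linarith
  have h4 : N ^ 2 ≤ (A⁻¹) ^ (1 / 15 : ℝ) := by
    have h5 : N ^ 2 = ((N ^ 2) ^ 15) ^ (1 / 15 : ℝ) := by
      rw [← Real.rpow_natCast (N ^ 2) 15, ← Real.rpow_mul (by positivity)]; norm_num
    rw [h5]
    exact Real.rpow_le_rpow (by positivity) h1 (by norm_num)
  have e1 : (A⁻¹) ^ (1 / 15 : ℝ) * (A ^ 4 * A ^ (0.004 : ℝ)) ≤ A ^ (3.94 : ℝ) := by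
    rw [Real.inv_rpow hA0.le, ← Real.rpow_neg hA0.le, ← Real.rpow_natCast A 4,
      ← Real.rpow_add hA0, ← Real.rpow_add hA0]
    exact Real.rpow_le_rpow_of_exponent_le hA (by norm_num)
  calc N ^ 2 * (10 ^ 17 * A ^ 4 * A ^ (0.004 : ℝ))
      ≤ (A⁻¹) ^ (1 / 15 : ℝ) * (10 ^ 17 * A ^ 4 * A ^ (0.004 : ℝ)) := by
        apply mul_le_mul_of_nonneg_right h4; positivity
    _ = 10 ^ 17 * ((A⁻¹) ^ (1 / 15 : ℝ) * (A ^ 4 * A ^ (0.004 : ℝ))) := by ring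
    _ ≤ 10 ^ 17 * A ^ (3.94 : ℝ) := mul_le_mul_of_nonneg_left e1 (by positivity)

theorem U3_boundC (A N N2 : ℝ) (hA : 1 ≤ A) (hN : 0 < N) (h2 : N ^ 2 * N2 ^ 2 ≤ 36) :
    N ^ 2 * (10 ^ 15 * A ^ (10 / 3 : ℝ) * N2 ^ 2 * A ^ (0.004 : ℝ)) ≤
      10 ^ 17 * A ^ (3.94 : ℝ) := by
  have hA0 : 0 < A := by linarith
  have e1 : A ^ (10 / 3 : ℝ) * A ^ (0.004 : ℝ) ≤ A ^ (3.94 : ℝ) := by
    rw [← Real.rpow_add hA0]
    exact Real.rpow_le_rpow_of_exponent_le hA (by norm_num)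
  have e2 : 0 < A ^ (10 / 3 : ℝ) * A ^ (0.004 : ℝ) := by positivity
  calc N ^ 2 * (10 ^ 15 * A ^ (10 / 3 : ℝ) * N2 ^ 2 * A ^ (0.004 : ℝ))
      = 10 ^ 15 * (N ^ 2 * N2 ^ 2) * (A ^ (10 / 3 : ℝ) * A ^ (0.004 : ℝ)) := by ring
    _ ≤ 10 ^ 15 * 36 * (A ^ (10 / 3 : ℝ) * A ^ (0.004 : ℝ)) := by
        apply mul_le_mul_of_nonneg_right _ e2.le
        linarith
    _ ≤ 10 ^ 17 * (A ^ (10 / 3 : ℝ) * A ^ (0.004 : ℝ)) := by
        apply mul_le_mul_of_nonneg_right _ e2.le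
        norm_num
    _ ≤ 10 ^ 17 * A ^ (3.94 : ℝ) := mul_le_mul_of_nonneg_left e1 (by positivity)

/-- The asymptotic inequality. -/
theorem U3_asymp : ∀ᶠ A : ℝ in Filter.atTop,
    (Real.log A + 10) * (2 * (10 ^ 12 * A ^ (3.995 : ℝ)) + 3 * (10 ^ 17 * A ^ (3.94 : ℝ)))
      ≤ A ^ (3.996 : ℝ) := by
  have h1 : ∀ᶠ A : ℝ in Filter.atTop, Real.log A ≤ A ^ (0.0005 : ℝ) := by
    have := (isLittleO_log_rpow_atTop (by norm_num : (0 : ℝ) < 0.0005)).bound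
      (by norm_num : (0 : ℝ) < 1)
    filter_upwards [this, Filter.eventually_ge_atTop (1 : ℝ)] with A hA h1
    rw [one_mul, Real.norm_of_nonneg (Real.log_nonneg h1),
      Real.norm_of_nonneg (by positivity)] at hA
    exact hA
  have h2 : ∀ᶠ A : ℝ in Filter.atTop, 11 * (2 * 10 ^ 12 + 3 * 10 ^ 17) ≤ A ^ (0.0005 : ℝ) :=
    (tendsto_rpow_atTop (by norm_num : (0 : ℝ) < 0.0005)).eventually_ge_atTop _
  filter_upwards [h1, h2, Filter.eventually_ge_atTop (1 : ℝ)] with A h3 h4 h5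
  have hA0 : 0 < A := by linarith
  have hlog : 0 ≤ Real.log A := Real.log_nonneg h5
  have hε : 1 ≤ A ^ (0.0005 : ℝ) := Real.one_le_rpow h5 (by norm_num)
  have e1 : A ^ (3.94 : ℝ) ≤ A ^ (3.995 : ℝ) :=
    Real.rpow_le_rpow_of_exponent_le h5 (by norm_num)
  have e2 : Real.log A + 10 ≤ 11 * A ^ (0.0005 : ℝ) := by linarith
  have e4 : A ^ (0.0005 : ℝ) * A ^ (0.0005 : ℝ) * A ^ (3.995 : ℝ) = A ^ (3.996 : ℝ) := by
    rw [← Real.rpow_add hA0, ← Real.rpow_add hA0]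
    norm_num
  have e5 : 0 < A ^ (3.995 : ℝ) := by positivity
  calc (Real.log A + 10) *
      (2 * (10 ^ 12 * A ^ (3.995 : ℝ)) + 3 * (10 ^ 17 * A ^ (3.94 : ℝ)))
      ≤ (11 * A ^ (0.0005 : ℝ)) *
        (2 * (10 ^ 12 * A ^ (3.995 : ℝ)) + 3 * (10 ^ 17 * A ^ (3.995 : ℝ))) := by
        apply mul_le_mul e2 _ (by positivity) (by positivity)
        linarith
    _ = (11 * (2 * 10 ^ 12 + 3 * 10 ^ 17)) * A ^ (0.0005 : ℝ) * A ^ (3.995 : ℝ) := by ring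
    _ ≤ A ^ (0.0005 : ℝ) * A ^ (0.0005 : ℝ) * A ^ (3.995 : ℝ) := by
        apply mul_le_mul_of_nonneg_right _ e5.le
        apply mul_le_mul_of_nonneg_right h4 (by positivity)
    _ = A ^ (3.996 : ℝ) := e4

/-- The count for cubes and non-cubes together. -/
theorem U3_split {A1 : ℝ} (hW1 : ∀ A : ℝ, A1 ≤ A → ∀ N1 N2 : ℝ, 0 < N1 →
    0 < N2 → N1 * N2 = 6 → A ^ 9 ≤ (A * N2 ^ 3) ^ 10 →
    ∀ S : Finset ((ℤ × ℤ) × (ℤ × ℤ) × (ℤ × ℤ)),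
    (∀ s ∈ S, IsGU A s.1.1 s.1.2 ∧ IsW A N1 N2 s.1.1 s.1.2 s.2.1 s.2.2 ∧
      ∀ e : ℤ, e ^ 3 ≠ T3 s.1.1 s.1.2 s.2.1 s.2.1 s.2.1) →
    (S.card : ℝ) ≤ 10 ^ 8 * A ^ 3 * N1 ^ 3 * (A * N2 ^ 3) ^ (0.995 : ℝ)) (A : ℝ) (hA : A1 ≤ A)
    (hA3 : 3000 ≤ A) (N1 N2 : ℝ) (hN1 : 0 < N1) (hN2 : 0 < N2) (hN : N1 * N2 = 6)
    (hAB : A ^ 9 ≤ (A * N2 ^ 3) ^ 10)
    (S : Finset ((ℤ × ℤ) × (ℤ × ℤ) × (ℤ × ℤ)))
    (hS : ∀ s ∈ S, IsGU A s.1.1 s.1.2 ∧ IsW A N1 N2 s.1.1 s.1.2 s.2.1 s.2.2) :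
    (S.card : ℝ) ≤ 10 ^ 8 * A ^ 3 * N1 ^ 3 * (A * N2 ^ 3) ^ (0.995 : ℝ) +
      10 ^ 15 * A ^ (10 / 3 : ℝ) * N2 ^ 2 * A ^ (0.004 : ℝ) := by
  classical
  have h1 := W_count_cubeU A hA3 N1 N2 hN1 hN2 hN
    (S.filter (fun s => ∃ e : ℤ, e ^ 3 = T3 s.1.1 s.1.2 s.2.1 s.2.1 s.2.1)) (fun s hs => by
      rw [Finset.mem_filter] at hs
      exact ⟨(hS s hs.1).1, (hS s hs.1).2, hs.2⟩)
  have h2 := hW1 A hA N1 N2 hN1 hN2 hN hAB
    (S.filter (fun s => ¬ ∃ e : ℤ, e ^ 3 = T3 s.1.1 s.1.2 s.2.1 s.2.1 s.2.1)) (fun s hs => by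
      rw [Finset.mem_filter] at hs
      exact ⟨(hS s hs.1).1, (hS s hs.1).2, fun e he => hs.2 ⟨e, he⟩⟩)
  have h3 : (S.card : ℝ) =
      ((S.filter (fun s => ∃ e : ℤ, e ^ 3 = T3 s.1.1 s.1.2 s.2.1 s.2.1 s.2.1)).card : ℝ) +
      ((S.filter (fun s => ¬ ∃ e : ℤ, e ^ 3 = T3 s.1.1 s.1.2 s.2.1 s.2.1 s.2.1)).card : ℝ) := by
    exact_mod_cast (Finset.card_filter_add_card_filter_not _).symm
  rw [h3]
  linarith

/-- The number of irreducible pairs in the main range, uniform version. -/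
theorem good_countU (hboxU : BoxU) : ∃ A0 : ℝ, 1 < A0 ∧ ∀ A : ℝ, A0 ≤ A →
    ∀ G : Finset (ℤ × ℤ),
    (∀ p ∈ G, IsGU A p.1 p.2 ∧ ∀ r : ℤ, r ^ 3 - 3 * p.1 * r + 2 * p.2 ≠ 0) →
    (G.card : ℝ) ≤ A ^ (3.996 : ℝ) := by
  classical
  obtain ⟨A1, hA1, hW1⟩ := W_countU hboxU
  obtain ⟨A3, hA3⟩ := Filter.eventually_atTop.1 U3_asymp
  refine ⟨max A1 (max A3 3000), lt_of_lt_of_le hA1 (le_max_left _ _), ?_⟩
  intro A hA G hG
  have hAA1 : A1 ≤ A := le_trans (le_max_left _ _) hA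
  have hAA3 : A3 ≤ A := le_trans (le_trans (le_max_left _ _) (le_max_right _ _)) hA
  have hA3000 : 3000 ≤ A := le_trans (le_trans (le_max_right _ _) (le_max_right _ _)) hA
  have hA1' : (1 : ℝ) ≤ A := by linarith
  have hA0 : (0 : ℝ) < A := by linarith
  -- the basis
  have hGC : ∀ p ∈ G, ∃ C : ℕ, IsG A C p.1 p.2 := fun p hp =>
    U0_isG (by linarith) (hG p hp).1
  have hxge : ∀ p ∈ G, A ^ 2 ≤ (p.1 : ℝ) := by
    intro p hp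
    obtain ⟨C, hC⟩ := hGC p hp
    exact D3_x_ge hA1' hC
  have hbasis : ∀ p : ℤ × ℤ, p ∈ G → ∃ v1 v2 : ℤ × ℤ, v1.1 * v2.2 - v2.1 * v1.2 = 1 ∧
      0 < Qn A p.1 v1 ∧ Qn A p.1 v1 ≤ 2 ∧ Qn A p.1 v1 * Qn A p.1 v2 ≤ 2 := by
    intro p hp
    exact exists_basis A hA1' p.1 (hxge p hp)
  choose! v1 v2 hv using hbasis
  have hidx : ∀ p : ℤ × ℤ, p ∈ G → ∃ i : ℕ, (2 / 2 ^ i : ℝ) ^ 2 / 4 < Qn A p.1 (v1 p) ∧
      Qn A p.1 (v1 p) ≤ (2 / 2 ^ i : ℝ) ^ 2 := by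
    intro p hp
    exact D3_index _ (hv p hp).2.1 (hv p hp).2.2.1
  choose! idx hidx using hidx
  have hirr : ∀ p ∈ G, ∀ v : ℤ × ℤ, v ≠ 0 → T3 p.1 p.2 v v v ≠ 0 := by
    intro p hp v hv0
    exact T3_ne_zero p.1 p.2 (hG p hp).2 v hv0
  have hv1ne : ∀ p ∈ G, v1 p ≠ 0 := by
    intro p hp h0
    have := (hv p hp).1
    rw [h0] at this
    simp at this
  set I : ℕ := ⌊Real.log A + 8⌋₊ with hI
  have hidxle : ∀ p ∈ G, idx p ∈ Finset.range (I + 1) := by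
    intro p hp
    rw [Finset.mem_range, Nat.lt_succ_iff, hI]
    apply Nat.le_floor
    have h1 := (hidx p hp).2
    obtain ⟨C, hC⟩ := hGC p hp
    have h2 := D3_Q_ge hA1' hC (v1 p) (hv p hp).2.1 (hirr p hp _ (hv1ne p hp))
    have h3 : 1 ≤ 6 * A * Qn A p.1 (v1 p) := by
      rcases h2 with h2 | h2
      · exact h2
      · nlinarith
    have e : ((2 : ℝ) / 2 ^ (idx p)) ^ 2 = 4 / 4 ^ (idx p) := by
      rw [div_pow, ← pow_mul, mul_comm, pow_mul]; norm_num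
    rw [e] at h1
    have h4 : (0 : ℝ) < 4 ^ (idx p) := by positivity
    have h5 : (4 : ℝ) ^ (idx p) ≤ 24 * A := by
      have h6 : 1 ≤ 6 * A * (4 / 4 ^ (idx p)) := by
        apply le_trans h3
        apply mul_le_mul_of_nonneg_left h1
        positivity
      rw [← mul_div_assoc, le_div_iff₀ h4] at h6
      linarith
    have h7 : Real.log ((4 : ℝ) ^ (idx p)) ≤ Real.log (24 * A) := Real.log_le_log h4 h5
    rw [Real.log_pow, Real.log_mul (by norm_num) hA0.ne'] at h7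
    have h8 : (1 : ℝ) ≤ Real.log 4 := by
      have : Real.log 4 = 2 * Real.log 2 := by
        rw [show (4 : ℝ) = 2 ^ 2 by norm_num, Real.log_pow]; norm_num
      have h9 := Real.log_two_gt_d9
      linarith
    have h10 : Real.log 24 ≤ 8 := by
      have h11 : Real.log 24 ≤ Real.log 32 := Real.log_le_log (by norm_num) (by norm_num)
      have h12 : Real.log 32 = 5 * Real.log 2 := by
        rw [show (32 : ℝ) = 2 ^ 5 by norm_num, Real.log_pow]; norm_num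
      have h13 := Real.log_two_lt_d9
      linarith
    have h14 : ((idx p : ℕ) : ℝ) ≤ (idx p : ℝ) * Real.log 4 := by
      have : (0 : ℝ) ≤ (idx p : ℝ) := Nat.cast_nonneg _
      nlinarith
    linarith
  -- the two cases
  set PA : ℤ × ℤ → Prop := fun p =>
    Qn A p.1 (v1 p) ≤ 100 * (((v1 p).2 : ℝ) * A / √(p.1 : ℝ)) ^ 2 with hPA
  have hN : ∀ i : ℕ, (0 : ℝ) < 2 / 2 ^ i := by
    intro i
    positivity
  have hN2 : ∀ i : ℕ, (2 / 2 ^ i : ℝ) ≤ 2 := by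
    intro i
    rw [div_le_iff₀ (by positivity)]
    have : (1 : ℝ) ≤ 2 ^ i := one_le_pow₀ (by norm_num)
    linarith
  have hfamA : ∀ i : ℕ, ∀ p ∈ (G.filter (fun p => idx p = i)).filter PA, ∀ n : ℕ,
      (n : ℝ) * (2 / 2 ^ i : ℝ) ^ 2 ≤ 1 →
      IsW A (2 / 2 ^ i : ℝ) (6 / (2 / 2 ^ i : ℝ)) p.1 p.2 (v1 p) (v2 p + (n : ℤ) • v1 p) := by
    intro i p hp n hn
    have hs1' := Finset.mem_filter.1 hp
    have hs1'' := Finset.mem_filter.1 hs1'.1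
    have hpG := hs1''.1
    have hb := hidx _ hpG
    rw [hs1''.2] at hb
    exact family_A A (2 / 2 ^ i) hA1' (hN i) (hN2 i) p.1 p.2 (hxge _ hpG)
      (hirr _ hpG) (v1 p) (v2 p) (hv _ hpG).1 hb.1 hb.2 (hv _ hpG).2.2.1
      (hv _ hpG).2.2.2 hs1'.2 n hn
  have hfamB : ∀ i : ℕ, ∀ p ∈ (G.filter (fun p => idx p = i)).filter (fun p => ¬ PA p), ∀ n : ℕ,
      (n : ℝ) * (2 / 2 ^ i : ℝ) ^ 2 ≤ 1 →
      IsW A (6 / (2 / 2 ^ i : ℝ)) (2 / 2 ^ i : ℝ) p.1 p.2 (v2 p + (n : ℤ) • v1 p) (-(v1 p)) := by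
    intro i p hp n hn
    have hs1' := Finset.mem_filter.1 hp
    have hs1'' := Finset.mem_filter.1 hs1'.1
    have hpG := hs1''.1
    have hb := hidx _ hpG
    rw [hs1''.2] at hb
    have hnot := hs1'.2
    rw [hPA] at hnot
    simp only [not_le] at hnot
    exact family_B A (2 / 2 ^ i) hA1' (hN i) (hN2 i) p.1 p.2 (hxge _ hpG)
      (hirr _ hpG) (v1 p) (v2 p) (hv _ hpG).1 hb.1 hb.2 (hv _ hpG).2.2.1
      (hv _ hpG).2.2.2 hnot n hn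
  have hTA : ∀ i : ℕ, (((G.filter (fun p => idx p = i)).filter PA).card : ℝ)
      ≤ 10 ^ 12 * A ^ (3.995 : ℝ) + 10 ^ 17 * A ^ (3.94 : ℝ) := by
    intro i
    have hmul := mult_count ((G.filter (fun p => idx p = i)).filter PA) (2 / 2 ^ i : ℝ)
      (10 ^ 8 * A ^ 3 * (2 / 2 ^ i : ℝ) ^ 3 * (A * (6 / (2 / 2 ^ i : ℝ)) ^ 3) ^ (0.995 : ℝ) +
        10 ^ 15 * A ^ (10 / 3 : ℝ) * (6 / (2 / 2 ^ i : ℝ)) ^ 2 * A ^ (0.004 : ℝ)) (hN i)
      (fun p n => (v1 p, v2 p + (n : ℤ) • v1 p)) (by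
        intro p hp n n' h
        have hpG : p ∈ G := (Finset.mem_filter.1 (Finset.mem_filter.1 hp).1).1
        have h2 := congrArg Prod.snd h
        exact D3_smul_inj (v1 p) (v2 p) (hv1ne p hpG) n n' h2) (by
        intro S hS
        have hS' : ∀ s ∈ S, IsGU A s.1.1 s.1.2 ∧ IsW A (2 / 2 ^ i : ℝ) (6 / (2 / 2 ^ i : ℝ))
            s.1.1 s.1.2 s.2.1 s.2.2 := by
          intro s hs
          obtain ⟨hs1, n, hn, hs2⟩ := hS s hs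
          have hpG := (Finset.mem_filter.1 (Finset.mem_filter.1 hs1).1).1
          refine ⟨(hG _ hpG).1, ?_⟩
          rw [hs2]
          exact hfamA i s.1 hs1 n hn
        exact U3_split hW1 A hAA1 hA3000 (2 / 2 ^ i : ℝ) (6 / (2 / 2 ^ i : ℝ)) (hN i)
          (by have := hN i; positivity) (by have := hN i; field_simp) (by
          have h1 : (1 : ℝ) ≤ 6 / (2 / 2 ^ i : ℝ) := by
            rw [le_div_iff₀ (hN i)]
            have := hN2 i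
            linarith
          have h2 : (1 : ℝ) ≤ (6 / (2 / 2 ^ i : ℝ)) ^ 3 := one_le_pow₀ h1
          have h3 : A ≤ A * (6 / (2 / 2 ^ i : ℝ)) ^ 3 := by nlinarith
          calc A ^ 9 ≤ A ^ 10 := pow_le_pow_right₀ hA1' (by norm_num)
            _ ≤ _ := pow_le_pow_left₀ hA0.le h3 10) S hS')
    rw [mul_add] at hmul
    have h1 := U3_boundA A _ hA1' (hN i) (hN2 i)
    have h2 := U3_boundC A (2 / 2 ^ i : ℝ) (6 / (2 / 2 ^ i : ℝ)) hA1' (hN i) (by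
      have := hN i
      have h3 : (2 / 2 ^ i : ℝ) ^ 2 * (6 / (2 / 2 ^ i : ℝ)) ^ 2 = 36 := by
        rw [← mul_pow, mul_div_cancel₀ _ (hN i).ne']
        norm_num
      exact h3.le)
    linarith
  have hTB : ∀ i : ℕ, (((G.filter (fun p => idx p = i)).filter (fun p => ¬ PA p)).card : ℝ)
      ≤ 10 ^ 12 * A ^ (3.995 : ℝ) + 2 * (10 ^ 17 * A ^ (3.94 : ℝ)) := by
    intro i
    have hfam : ∀ S : Finset ((ℤ × ℤ) × (ℤ × ℤ) × (ℤ × ℤ)), (∀ s ∈ S,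
        s.1 ∈ ((G.filter (fun p => idx p = i)).filter (fun p => ¬ PA p)) ∧
        ∃ n : ℕ, (n : ℝ) * (2 / 2 ^ i : ℝ) ^ 2 ≤ 1 ∧
          s.2 = (v2 s.1 + (n : ℤ) • v1 s.1, -(v1 s.1))) →
        ∀ s ∈ S, IsGU A s.1.1 s.1.2 ∧
          IsW A (6 / (2 / 2 ^ i : ℝ)) (2 / 2 ^ i : ℝ) s.1.1 s.1.2 s.2.1 s.2.2 := by
      intro S hS s hs
      obtain ⟨hs1, n, hn, hs2⟩ := hS s hs
      have hpG := (Finset.mem_filter.1 (Finset.mem_filter.1 hs1).1).1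
      refine ⟨(hG _ hpG).1, ?_⟩
      rw [hs2]
      exact hfamB i s.1 hs1 n hn
    have hinj : ∀ p ∈ ((G.filter (fun p => idx p = i)).filter (fun p => ¬ PA p)), ∀ n n' : ℕ,
        (fun (p : ℤ × ℤ) (n : ℕ) => (v2 p + (n : ℤ) • v1 p, -(v1 p))) p n =
        (fun (p : ℤ × ℤ) (n : ℕ) => (v2 p + (n : ℤ) • v1 p, -(v1 p))) p n' → n = n' := by
      intro p hp n n' h
      have hpG : p ∈ G := (Finset.mem_filter.1 (Finset.mem_filter.1 hp).1).1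
      have h2 := congrArg Prod.fst h
      exact D3_smul_inj (v1 p) (v2 p) (hv1ne p hpG) n n' h2
    have hpos2 : 0 ≤ 10 ^ 12 * A ^ (3.995 : ℝ) := by positivity
    have hpos3 : 0 ≤ 10 ^ 17 * A ^ (3.94 : ℝ) := by positivity
    have hNi := hN i
    rcases le_or_gt (A ^ 9) ((A * (2 / 2 ^ i : ℝ) ^ 3) ^ 10) with hcase | hcase
    · have hmul := mult_count ((G.filter (fun p => idx p = i)).filter (fun p => ¬ PA p))
        (2 / 2 ^ i : ℝ)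
        (10 ^ 8 * A ^ 3 * (6 / (2 / 2 ^ i : ℝ)) ^ 3 * (A * (2 / 2 ^ i : ℝ) ^ 3) ^ (0.995 : ℝ) +
          10 ^ 15 * A ^ (10 / 3 : ℝ) * (2 / 2 ^ i : ℝ) ^ 2 * A ^ (0.004 : ℝ)) (hN i)
        (fun p n => (v2 p + (n : ℤ) • v1 p, -(v1 p))) hinj (by
          intro S hS
          exact U3_split hW1 A hAA1 hA3000 (6 / (2 / 2 ^ i : ℝ)) (2 / 2 ^ i : ℝ) (by positivity)
            (hN i) (by field_simp) hcase S (hfam S hS))
      rw [mul_add] at hmul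
      have h1 := U3_boundB A _ hA1' (hN i) (hN2 i)
      have h2 := U3_boundC A (2 / 2 ^ i : ℝ) (2 / 2 ^ i : ℝ) hA1' (hN i) (by
        have h3 : (2 / 2 ^ i : ℝ) ^ 2 ≤ 2 ^ 2 := pow_le_pow_left₀ (hN i).le (hN2 i) 2
        have h4 : (2 / 2 ^ i : ℝ) ^ 2 * (2 / 2 ^ i : ℝ) ^ 2 ≤ 2 ^ 2 * 2 ^ 2 :=
          mul_le_mul h3 h3 (by positivity) (by norm_num)
        linarith)
      linarith
    · have hmul := mult_count ((G.filter (fun p => idx p = i)).filter (fun p => ¬ PA p))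
        (2 / 2 ^ i : ℝ) (10 ^ 17 * A ^ 4 * A ^ (0.004 : ℝ)) (hN i)
        (fun p n => (v2 p + (n : ℤ) • v1 p, -(v1 p))) hinj (by
          intro S hS
          exact W_count_trivU A hA3000 (6 / (2 / 2 ^ i : ℝ)) (2 / 2 ^ i : ℝ) (by positivity)
            (hN i) (by field_simp) S (hfam S hS))
      have := U3_boundB' A _ hA1' (hN i) hcase
      linarith
  -- summation
  have hsum : G.card = ∑ i ∈ Finset.range (I + 1), (G.filter (fun p => idx p = i)).card :=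
    Finset.card_eq_sum_card_fiberwise (f := idx) (t := Finset.range (I + 1))
      (by intro p hp; exact hidxle p hp)
  have hcast : (G.card : ℝ) = ∑ i ∈ Finset.range (I + 1),
      ((G.filter (fun p => idx p = i)).card : ℝ) := by
    rw [hsum]; push_cast; rfl
  have hI' : (I : ℝ) ≤ Real.log A + 8 := by
    rw [hI]
    apply Nat.floor_le
    have : 0 ≤ Real.log A := Real.log_nonneg hA1'
    linarith
  have hlog : 0 ≤ Real.log A := Real.log_nonneg hA1'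
  calc (G.card : ℝ) = ∑ i ∈ Finset.range (I + 1),
        ((G.filter (fun p => idx p = i)).card : ℝ) := hcast
    _ ≤ ∑ _i ∈ Finset.range (I + 1),
        (2 * (10 ^ 12 * A ^ (3.995 : ℝ)) + 3 * (10 ^ 17 * A ^ (3.94 : ℝ))) := by
      apply Finset.sum_le_sum
      intro i _
      have h1 : (G.filter (fun p => idx p = i)).card
          = ((G.filter (fun p => idx p = i)).filter PA).card
            + ((G.filter (fun p => idx p = i)).filter (fun p => ¬ PA p)).card :=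
        (Finset.card_filter_add_card_filter_not _).symm
      rw [h1]
      push_cast
      have h2 := hTA i
      have h3 := hTB i
      linarith
    _ = ((I : ℝ) + 1) * (2 * (10 ^ 12 * A ^ (3.995 : ℝ)) + 3 * (10 ^ 17 * A ^ (3.94 : ℝ))) := by
      rw [Finset.sum_const, Finset.card_range, nsmul_eq_mul]; push_cast; ring
    _ ≤ (Real.log A + 10) *
        (2 * (10 ^ 12 * A ^ (3.995 : ℝ)) + 3 * (10 ^ 17 * A ^ (3.94 : ℝ))) := by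
      apply mul_le_mul_of_nonneg_right _ (by positivity)
      linarith
    _ ≤ A ^ (3.996 : ℝ) := hA3 A hAA3

end LibHall
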