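import Pool.Agent.LibHall43.E3
import Pool.Agent.LibHU43.U3

set_option autoImplicit false

namespace LibHall

/-- All pairs, as a bound for finite sets, uniform version. -/
theorem total_countU (hboxU : BoxU) : ∃ c : ℝ, 0 < c ∧ ∀ K : ℝ, 1 ≤ K → ∀ G : Finset (ℤ × ℤ),
    (∀ p ∈ G, p.2 ^ 2 ≠ p.1 ^ 3 ∧ |((p.2 ^ 2 - p.1 ^ 3 : ℤ) : ℝ)| ≤ K ∧
      |(p.1 : ℝ)| ≤ Real.exp (K ^ (0.001 : ℝ))) →
    (G.card : ℝ) ≤ c * K ^ (0.999 : ℝ) := by
  classical
  obtain ⟨c1, hc1, h1⟩ := small_x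
  obtain ⟨c2, hc2, h2⟩ := reducible_count
  obtain ⟨A0, hA0, h3⟩ := good_countU hboxU
  set K0 : ℝ := A0 ^ 4 with hK0
  have hK01 : 1 ≤ K0 := one_le_pow₀ hA0.le
  obtain ⟨C, hC⟩ := pow_unbounded_of_one_lt (Real.exp (K0 ^ (0.001 : ℝ)))
    (one_lt_pow₀ hA0 (by norm_num) : 1 < K0)
  set c3 : ℝ := (2 * K0 ^ C + 1) * (2 * (K0 ^ (3 * C) + K0) + 1) with hc3
  have hc3p : 0 < c3 := by positivity
  refine ⟨c1 + c2 + 2 + c3, by positivity, fun K hK G hG => ?_⟩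
  have hKp : 0 < K := by linarith
  have h98 : 1 ≤ K ^ (0.999 : ℝ) := Real.one_le_rpow hK (by norm_num)
  rcases lt_or_ge K K0 with hKK | hKK
  · -- bounded `K`
    have h4 := E3_box K0 hK01 C G (fun p hp => ⟨(hG p hp).2.1.trans hKK.le,
      ((hG p hp).2.2.trans (Real.exp_le_exp.2 (Real.rpow_le_rpow hKp.le hKK.le
        (by norm_num)))).trans hC.le⟩)
    rw [← hc3] at h4
    nlinarith
  · -- large `K`
    set A : ℝ := K ^ (0.25 : ℝ) with hA
    have hA4 : A ^ 4 = K := by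
      rw [hA, ← Real.rpow_natCast, ← Real.rpow_mul hKp.le]
      norm_num
    have hAp : 0 < A := Real.rpow_pos_of_pos hKp _
    have hAA : A0 ≤ A := by
      have h5 : A0 ^ 4 ≤ A ^ 4 := by rw [hA4]; exact hKK
      exact le_of_pow_le_pow_left₀ (by norm_num) hAp.le h5
    have hA392 : A ^ (3.996 : ℝ) = K ^ (0.999 : ℝ) := by
      rw [hA, ← Real.rpow_mul hKp.le]
      norm_num
    have hA004 : A ^ (0.004 : ℝ) = K ^ (0.001 : ℝ) := by
      rw [hA, ← Real.rpow_mul hKp.le]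
      norm_num
    set G1 := G.filter (fun p => (p.1 : ℝ) ^ 5 ≤ K ^ 3) with hG1
    set G2 := G.filter (fun p => ∃ r : ℤ, r ^ 3 - 3 * p.1 * r + 2 * p.2 = 0) with hG2
    set G3 := G.filter (fun p => ¬ ((p.1 : ℝ) ^ 5 ≤ K ^ 3) ∧
      (¬ ∃ r : ℤ, r ^ 3 - 3 * p.1 * r + 2 * p.2 = 0) ∧ 0 ≤ p.2) with hG3
    set G4 := G.filter (fun p => ¬ ((p.1 : ℝ) ^ 5 ≤ K ^ 3) ∧
      (¬ ∃ r : ℤ, r ^ 3 - 3 * p.1 * r + 2 * p.2 = 0) ∧ ¬ 0 ≤ p.2) with hG4
    have hcov : G ⊆ (G1 ∪ G2) ∪ (G3 ∪ G4) := by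
      intro p hp
      simp only [hG1, hG2, hG3, hG4, Finset.mem_union, Finset.mem_filter]
      tauto
    have hcard : G.card ≤ (G1.card + G2.card) + (G3.card + G4.card) :=
      (Finset.card_le_card hcov).trans ((Finset.card_union_le _ _).trans
        (add_le_add (Finset.card_union_le _ _) (Finset.card_union_le _ _)))
    have hcard' : (G.card : ℝ) ≤ ((G1.card : ℝ) + G2.card) + ((G3.card : ℝ) + G4.card) := by
      exact_mod_cast hcard
    have b1 : (G1.card : ℝ) ≤ c1 * K ^ (0.95 : ℝ) := h1 K hK G1 (fun p hp => by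
      rw [hG1, Finset.mem_filter] at hp
      exact ⟨hp.2, (hG p hp.1).1, (hG p hp.1).2.1⟩)
    have b2 : (G2.card : ℝ) ≤ c2 * K ^ (0.9 : ℝ) := h2 K hK G2 (fun p hp => by
      rw [hG2, Finset.mem_filter] at hp
      exact ⟨hp.2, (hG p hp.1).1, (hG p hp.1).2.1⟩)
    have hIsG : ∀ x y : ℤ, ¬ ((x : ℝ) ^ 5 ≤ K ^ 3) → 0 ≤ y → y ^ 2 ≠ x ^ 3 →
        |((y ^ 2 - x ^ 3 : ℤ) : ℝ)| ≤ K → |(x : ℝ)| ≤ Real.exp (K ^ (0.001 : ℝ)) →
        IsGU A x y := by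
      intro x y hx hy hne hk hxC
      have hx5 : K ^ 3 < (x : ℝ) ^ 5 := not_le.1 hx
      have hx0 : 0 < x := by
        by_contra hcon
        have hx1 : (x : ℝ) ≤ 0 := by exact_mod_cast (not_lt.1 hcon)
        have hx2 : (x : ℝ) ^ 5 ≤ 0 := by
          have : (x : ℝ) ^ 5 = (x : ℝ) * ((x : ℝ) ^ 2) ^ 2 := by ring
          rw [this]
          exact mul_nonpos_of_nonpos_of_nonneg hx1 (sq_nonneg _)
        have : 0 < K ^ 3 := by positivity
        linarith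
      refine ⟨hx0, ?_, ?_, hy, hne, ?_⟩
      · have : A ^ 12 = K ^ 3 := by rw [← hA4]; ring
        rw [this]; exact hx5.le
      · rw [hA004]
        have hx0r : (0 : ℝ) < x := by exact_mod_cast hx0
        rw [Real.log_le_iff_le_exp hx0r]
        exact (le_abs_self _).trans hxC
      · rw [hA4]; exact hk
    have b3 : (G3.card : ℝ) ≤ A ^ (3.996 : ℝ) := h3 A hAA G3 (fun p hp => by
      rw [hG3, Finset.mem_filter] at hp
      obtain ⟨hp, hp1, hp2, hp3⟩ := hp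
      obtain ⟨hq1, hq2, hq3⟩ := hG p hp
      refine ⟨hIsG p.1 p.2 hp1 hp3 hq1 hq2 hq3, fun r hr => hp2 ⟨r, hr⟩⟩)
    have b4 : (G4.card : ℝ) ≤ A ^ (3.996 : ℝ) := by
      have hinj : Function.Injective (fun p : ℤ × ℤ => (p.1, -p.2)) := by
        intro p p' h
        simp only [Prod.mk.injEq, neg_inj] at h
        exact Prod.ext h.1 h.2
      rw [← Finset.card_image_of_injective G4 hinj]
      refine h3 A hAA _ (fun p hp => ?_)
      rw [Finset.mem_image] at hp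
      obtain ⟨t, ht, rfl⟩ := hp
      rw [hG4, Finset.mem_filter] at ht
      obtain ⟨ht, ht1, ht2, ht3⟩ := ht
      obtain ⟨hq1, hq2, hq3⟩ := hG t ht
      refine ⟨hIsG t.1 (-t.2) ht1 (by linarith [not_le.1 ht3]) (by rw [neg_sq]; exact hq1)
        (by rw [neg_sq]; exact hq2) hq3, fun r hr => ht2 ⟨-r, ?_⟩⟩
      simp only at hr
      linear_combination -hr
    rw [hA392] at b3 b4
    have k1 : K ^ (0.95 : ℝ) ≤ K ^ (0.999 : ℝ) :=
      Real.rpow_le_rpow_of_exponent_le hK (by norm_num)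
    have k2 : K ^ (0.9 : ℝ) ≤ K ^ (0.999 : ℝ) :=
      Real.rpow_le_rpow_of_exponent_le hK (by norm_num)
    have m1 := mul_le_mul_of_nonneg_left k1 hc1.le
    have m2 := mul_le_mul_of_nonneg_left k2 hc2.le
    nlinarith

end LibHall
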