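import Pool.Agent.LibHU43.U4

set_option autoImplicit false

namespace LibHall

/-- Version for the pairs. -/
theorem pairs_versionU (hboxU : BoxU) : ∃ c : ℝ, 0 < c ∧ ∀ K : ℝ, 1 ≤ K →
    {p : ℤ × ℤ | p.2 ^ 2 ≠ p.1 ^ 3 ∧ |((p.2 ^ 2 - p.1 ^ 3 : ℤ) : ℝ)| ≤ K ∧
      |(p.1 : ℝ)| ≤ Real.exp (K ^ (0.001 : ℝ))}.Finite ∧
    ({p : ℤ × ℤ | p.2 ^ 2 ≠ p.1 ^ 3 ∧ |((p.2 ^ 2 - p.1 ^ 3 : ℤ) : ℝ)| ≤ K ∧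
      |(p.1 : ℝ)| ≤ Real.exp (K ^ (0.001 : ℝ))}.ncard : ℝ) ≤ c * K ^ (0.999 : ℝ) := by
  obtain ⟨c, hc, h⟩ := total_countU hboxU
  refine ⟨c, hc, fun K hK => ?_⟩
  have hfin : {p : ℤ × ℤ | p.2 ^ 2 ≠ p.1 ^ 3 ∧ |((p.2 ^ 2 - p.1 ^ 3 : ℤ) : ℝ)| ≤ K ∧
      |(p.1 : ℝ)| ≤ Real.exp (K ^ (0.001 : ℝ))}.Finite := by
    by_contra hinf
    obtain ⟨G, hG, hcard⟩ := Set.Infinite.exists_subset_card_eq hinf (⌊c * K ^ (0.999 : ℝ)⌋₊ + 1)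
    have h1 := h K hK G (fun p hp => hG hp)
    rw [hcard] at h1
    have h2 := Nat.lt_floor_add_one (c * K ^ (0.999 : ℝ))
    push_cast at h1
    linarith
  refine ⟨hfin, ?_⟩
  have h1 := h K hK hfin.toFinset (fun p hp => by simpa using hp)
  rwa [← Set.ncard_eq_toFinset_card _ hfin] at h1

/-- Version for the exceptional `k`. -/
theorem k_versionU (hboxU : BoxU) : ∃ c : ℝ, 0 < c ∧ ∀ K : ℝ, 1 ≤ K →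
    {k : ℤ | k ≠ 0 ∧ |(k : ℝ)| ≤ K ∧ ∃ x y : ℤ, y ^ 2 = x ^ 3 + k ∧ |(x : ℝ)| ≤ Real.exp (|(k : ℝ)| ^ (0.001 : ℝ))}.Finite ∧
    ({k : ℤ | k ≠ 0 ∧ |(k : ℝ)| ≤ K ∧ ∃ x y : ℤ, y ^ 2 = x ^ 3 + k ∧ |(x : ℝ)| ≤ Real.exp (|(k : ℝ)| ^ (0.001 : ℝ))}.ncard : ℝ)
      ≤ c * K ^ (0.999 : ℝ) := by
  obtain ⟨c, hc, h⟩ := pairs_versionU hboxU
  refine ⟨c, hc, fun K hK => ?_⟩
  obtain ⟨hfin, hcard⟩ := h K hK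
  have hsub : {k : ℤ | k ≠ 0 ∧ |(k : ℝ)| ≤ K ∧ ∃ x y : ℤ, y ^ 2 = x ^ 3 + k ∧ |(x : ℝ)| ≤ Real.exp (|(k : ℝ)| ^ (0.001 : ℝ))} ⊆
      (fun p : ℤ × ℤ => p.2 ^ 2 - p.1 ^ 3) '' {p : ℤ × ℤ | p.2 ^ 2 ≠ p.1 ^ 3 ∧
        |((p.2 ^ 2 - p.1 ^ 3 : ℤ) : ℝ)| ≤ K ∧ |(p.1 : ℝ)| ≤ Real.exp (K ^ (0.001 : ℝ))} := by
    rintro k ⟨hk0, hkK, x, y, hxy, hx⟩
    have he : y ^ 2 - x ^ 3 = k := by linarith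
    refine ⟨(x, y), ⟨?_, ?_, ?_⟩, he⟩
    · intro h0
      apply hk0
      rw [← he]
      exact sub_eq_zero.mpr h0
    · show |((y ^ 2 - x ^ 3 : ℤ) : ℝ)| ≤ K
      rw [he]
      exact hkK
    · show |(x : ℝ)| ≤ Real.exp (K ^ (0.001 : ℝ))
      exact hx.trans (Real.exp_le_exp.2 (Real.rpow_le_rpow (abs_nonneg _) hkK (by norm_num)))
  have himg := hfin.image (fun p : ℤ × ℤ => p.2 ^ 2 - p.1 ^ 3)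
  refine ⟨himg.subset hsub, ?_⟩
  have h1 := Set.ncard_le_ncard hsub himg
  have h2 := Set.ncard_image_le (f := fun p : ℤ × ℤ => p.2 ^ 2 - p.1 ^ 3) hfin
  calc ({k : ℤ | k ≠ 0 ∧ |(k : ℝ)| ≤ K ∧ ∃ x y : ℤ, y ^ 2 = x ^ 3 + k ∧
        |(x : ℝ)| ≤ Real.exp (|(k : ℝ)| ^ (0.001 : ℝ))}.ncard : ℝ) ≤ ({p : ℤ × ℤ | p.2 ^ 2 ≠ p.1 ^ 3 ∧
          |((p.2 ^ 2 - p.1 ^ 3 : ℤ) : ℝ)| ≤ K ∧ |(p.1 : ℝ)| ≤ Real.exp (K ^ (0.001 : ℝ))}.ncard : ℝ) := by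
        exact_mod_cast h1.trans h2
    _ ≤ c * K ^ (0.999 : ℝ) := hcard

end LibHall
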