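import Pool.Agent.LibHU43.U5
import Pool.Agent.LibHU21.C1

set_option autoImplicit false

namespace LibHall

theorem U6_boxU : BoxU := by
  obtain ⟨n0, hn0, H⟩ := LibHU.box_countU
  refine ⟨n0, by linarith, fun n hn Θ h1 h2 h3 R0 R1 R2 r0 r1 r2 k0 k1 k2 S hS => ?_⟩
  refine H n hn Θ h1 h2 h3 R0 R1 R2 r0 r1 r2 k0 k1 k2 S (fun s hs => ?_)
  obtain ⟨g0, g1, g2⟩ := hS s hs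
  refine ⟨fun e he => ?_, g2⟩
  rcases abs_eq_abs.1 he with h | h
  · exact g1 e h
  · refine g1 (-e) ?_
    rw [← neg_eq_iff_eq_neg.2 h]
    ring

theorem finalU :
    (∃ c : ℝ, 0 < c ∧ ∀ K : ℝ, 1 ≤ K →
      {p : ℤ × ℤ | p.2 ^ 2 ≠ p.1 ^ 3 ∧ |((p.2 ^ 2 - p.1 ^ 3 : ℤ) : ℝ)| ≤ K ∧
        |(p.1 : ℝ)| ≤ Real.exp (K ^ (0.001 : ℝ))}.Finite ∧
      ({p : ℤ × ℤ | p.2 ^ 2 ≠ p.1 ^ 3 ∧ |((p.2 ^ 2 - p.1 ^ 3 : ℤ) : ℝ)| ≤ K ∧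
        |(p.1 : ℝ)| ≤ Real.exp (K ^ (0.001 : ℝ))}.ncard : ℝ) ≤ c * K ^ (0.999 : ℝ)) ∧
    (∃ c : ℝ, 0 < c ∧ ∀ K : ℝ, 1 ≤ K →
      {k : ℤ | k ≠ 0 ∧ |(k : ℝ)| ≤ K ∧ ∃ x y : ℤ, y ^ 2 = x ^ 3 + k ∧
        |(x : ℝ)| ≤ Real.exp (|(k : ℝ)| ^ (0.001 : ℝ))}.Finite ∧
      ({k : ℤ | k ≠ 0 ∧ |(k : ℝ)| ≤ K ∧ ∃ x y : ℤ, y ^ 2 = x ^ 3 + k ∧
        |(x : ℝ)| ≤ Real.exp (|(k : ℝ)| ^ (0.001 : ℝ))}.ncard : ℝ) ≤ c * K ^ (0.999 : ℝ)) :=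
  ⟨pairs_versionU U6_boxU, k_versionU U6_boxU⟩

end LibHall
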